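import Mathlib

/-!
# The Nordhaus–Gaddum inequality fails for independent monophonic position colourings
-/

namespace Pool.Agent.Results.MP_691331_co.MonophonicCE

/-- `X` is an independent monophonic position set of `G`: it is independent, and for distinct
`u, v` in `X` no induced `u,v`-path contains a vertex of `X` besides `u` and `v`. An induced
`u,v`-path is given by an embedding (as an induced subgraph) of a path graph, whose first
vertex goes to `u` and whose last vertex goes to `v`. -/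
def IsIndepMP {V : Type} (G : SimpleGraph V) (X : Set V) : Prop :=
  (∀ u ∈ X, ∀ v ∈ X, ¬ G.Adj u v) ∧
  ∀ u ∈ X, ∀ v ∈ X, u ≠ v → ∀ (k : ℕ) (f : SimpleGraph.pathGraph (k + 1) ↪g G),
    f 0 = u → f (Fin.last k) = v → ∀ w ∈ Set.range f, w ∈ X → w = u ∨ w = v

/-- The least number of classes in a partition of the vertices into independent monophonic
position sets. -/
noncomputable def chiMP {V : Type} (G : SimpleGraph V) : ℕ :=
  sInf {k : ℕ | ∃ c : V → Fin k, ∀ i, IsIndepMP G (c ⁻¹' {i})}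

/-- edge list of the graph -/
def edgeList : List (Fin 13 × Fin 13) :=
  [(0, 5), (0, 8), (0, 10), (0, 11), (0, 12), (1, 5), (1, 6), (1, 8), (1, 9), (1, 11),
   (2, 6), (2, 9), (2, 10), (2, 12), (3, 5), (3, 6), (3, 7), (3, 8), (3, 12), (4, 7), (4, 8),
   (4, 9), (4, 10), (4, 11)]

/-- adjacency -/
def adjB (u v : Fin 13) : Bool := edgeList.contains (u, v) || edgeList.contains (v, u)

/-- the graph -/
def Gr : SimpleGraph (Fin 13) where
  Adj u v := adjB u v = true
  symm := ⟨by decide⟩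
  loopless := ⟨by decide⟩

instance : DecidableRel Gr.Adj := fun u v => inferInstanceAs (Decidable (adjB u v = true))

/-- induced paths -/
def certs : List (List (Fin 13)) :=
  [[0, 5, 3, 6, 2, 9, 4], [7, 3, 5, 1, 9, 2, 10], [5, 1, 8, 4, 10, 2, 12],
   [7, 3, 6, 2, 10, 0, 11], [7, 3, 12, 0, 11, 1, 9], [6, 1, 9, 4, 10, 0, 12],
   [6, 2, 12, 0, 8, 4, 7], [9, 2, 6, 3, 8, 0, 11], [5, 1, 11, 4, 10, 2, 12],
   [7, 3, 8, 0, 10, 2, 9], [4, 9, 1, 5, 3, 12], [5, 0, 8, 4, 9, 2, 6],
   [5, 0, 11, 4, 9, 2, 6], [5, 1, 6, 2, 10, 4, 7], [10, 2, 12, 3, 8, 1, 11],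
   [0, 5, 1, 6, 2], [4, 11, 0, 12, 2, 6], [5, 0, 8, 4, 7], [5, 0, 11, 4, 7],
   [5, 0, 12, 2, 9, 4, 7], [5, 0, 12, 2, 6], [5, 3, 8, 4, 11], [6, 1, 8, 0, 10],
   [6, 1, 9, 4, 7], [7, 3, 8, 0, 11], [7, 3, 12, 0, 10], [8, 0, 12, 2, 9],
   [9, 1, 11, 0, 10]]

theorem certs_ok : ∀ l ∈ certs, l.Nodup ∧ ∀ i j : Fin l.length,
    (Gr.Adj (l.get i) (l.get j) ↔ ((i : ℕ) + 1 = j ∨ (j : ℕ) + 1 = i)) := by
  decide

theorem triples : ∀ x y : Fin 13, x ≠ y → ¬ Gr.Adj x y → ∀ z : Fin 13, x ≠ z → y ≠ z →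
    ¬ Gr.Adj x z → ¬ Gr.Adj y z → ∃ l ∈ certs, x ∈ l ∧ y ∈ l ∧ z ∈ l := by
  decide

/-- a stretch of a certified path is an induced path -/
theorem stretch (l : List (Fin 13)) (hl : l ∈ certs) (a b c : Fin l.length) (hab : a < b)
    (hbc : b < c) (X : Set (Fin 13)) (hX : IsIndepMP Gr X) (ha : l.get a ∈ X)
    (hb : l.get b ∈ X) (hc : l.get c ∈ X) : False := by
  obtain ⟨hnd, hadj⟩ := certs_ok l hl
  have hinj : Function.Injective l.get := List.nodup_iff_injective_get.mp hnd
  have hab' : (a : ℕ) < b := hab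
  have hbc' : (b : ℕ) < c := hbc
  have hcl := c.2
  let g : Fin ((c : ℕ) - a + 1) → Fin l.length := fun i => ⟨a + i, by have := i.2; omega⟩
  have hg : Function.Injective g := by
    intro i j h
    have h1 : (a : ℕ) + i = a + j := congrArg Fin.val h
    exact Fin.ext (by omega)
  let f : SimpleGraph.pathGraph ((c : ℕ) - a + 1) ↪g Gr :=
    { toFun := fun i => l.get (g i)
      inj' := hinj.comp hg
      map_rel_iff' := by
        intro i j
        show Gr.Adj (l.get (g i)) (l.get (g j)) ↔ _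
        rw [hadj, SimpleGraph.pathGraph_adj]
        show ((a : ℕ) + i + 1 = a + j ∨ (a : ℕ) + j + 1 = a + i) ↔ _
        omega }
  have h0 : f 0 = l.get a := by
    show l.get (g 0) = l.get a
    congr 1
  have h1 : f (Fin.last _) = l.get c := by
    show l.get (g (Fin.last _)) = l.get c
    congr 1
    apply Fin.ext
    show (a : ℕ) + (c - a) = c
    omega
  have h2 : l.get b ∈ Set.range f := by
    refine ⟨⟨(b : ℕ) - a, by omega⟩, ?_⟩
    show l.get (g _) = l.get b
    congr 1
    apply Fin.ext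
    show (a : ℕ) + (b - a) = b
    omega
  have hne : l.get a ≠ l.get c := fun h => by
    have := congrArg Fin.val (hinj h)
    omega
  rcases hX.2 _ ha _ hc hne _ f h0 h1 _ h2 hb with h | h
  · have := congrArg Fin.val (hinj h)
    omega
  · have := congrArg Fin.val (hinj h)
    omega

/-- independent monophonic position sets have at most two elements -/
theorem small (X : Finset (Fin 13)) (hX : IsIndepMP Gr (X : Set (Fin 13))) : X.card ≤ 2 := by
  by_contra hcard
  push Not at hcard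
  obtain ⟨x, y, z, hx, hy, hz, hxy, hxz, hyz⟩ := Finset.two_lt_card_iff.mp hcard
  obtain ⟨l, hl, h1, h2, h3⟩ := triples x y hxy (hX.1 x hx y hy) z hxz hyz
    (hX.1 x hx z hz) (hX.1 y hy z hz)
  obtain ⟨a, rfl⟩ := List.get_of_mem h1
  obtain ⟨b, rfl⟩ := List.get_of_mem h2
  obtain ⟨c, rfl⟩ := List.get_of_mem h3
  have hab : a ≠ b := fun h => hxy (by rw [h])
  have hac : a ≠ c := fun h => hxz (by rw [h])
  have hbc : b ≠ c := fun h => hyz (by rw [h])
  rcases lt_or_gt_of_ne hab with h4 | h4 <;> rcases lt_or_gt_of_ne hbc with h5 | h5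
  · exact stretch l hl a b c h4 h5 _ hX hx hy hz
  · rcases lt_or_gt_of_ne hac with h6 | h6
    · exact stretch l hl a c b h6 h5 _ hX hx hz hy
    · exact stretch l hl c a b h6 h4 _ hX hz hx hy
  · rcases lt_or_gt_of_ne hac with h6 | h6
    · exact stretch l hl b a c h4 h6 _ hX hy hx hz
    · exact stretch l hl b c a h5 h6 _ hX hy hz hx
  · exact stretch l hl c b a h5 h4 _ hX hz hy hx

theorem chi_ge : 7 ≤ chiMP Gr := by
  have hne : {k : ℕ | ∃ c : Fin 13 → Fin k, ∀ i, IsIndepMP Gr (c ⁻¹' {i})}.Nonempty := by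
    refine ⟨13, id, fun i => ⟨?_, ?_⟩⟩
    · rintro u rfl v hv h
      have : v = u := hv
      subst this
      exact h.ne rfl
    · rintro u rfl v hv huv
      exact absurd (show v = u from hv).symm huv
  refine le_csInf hne ?_
  rintro k ⟨c, hc⟩
  have h1 : ∀ i : Fin k, (Finset.univ.filter fun v => c v = i).card ≤ 2 := by
    intro i
    apply small
    have : ((Finset.univ.filter fun v => c v = i : Finset (Fin 13)) : Set (Fin 13)) =
        c ⁻¹' {i} := by
      ext v; simp
    rw [this]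
    exact hc i
  have h2 := Finset.card_eq_sum_card_fiberwise (f := c) (s := Finset.univ)
    (t := Finset.univ) (fun x _ => by simp)
  have h3 : ∑ i : Fin k, (Finset.univ.filter fun v => c v = i).card ≤ ∑ _i : Fin k, 2 :=
    Finset.sum_le_sum fun i _ => h1 i
  rw [← h2] at h3
  simp only [Finset.sum_const, Finset.card_univ, Fintype.card_fin, smul_eq_mul] at h3
  omega

theorem big_indep : ∀ i j : Fin 8, ¬ Gr.Adj ⟨i + 5, by omega⟩ ⟨j + 5, by omega⟩ := by
  decide

theorem chi_compl_ge : 8 ≤ chiMP Grᶜ := by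
  have hne : {k : ℕ | ∃ c : Fin 13 → Fin k, ∀ i, IsIndepMP Grᶜ (c ⁻¹' {i})}.Nonempty := by
    refine ⟨13, id, fun i => ⟨?_, ?_⟩⟩
    · rintro u rfl v hv h
      have : v = u := hv
      subst this
      exact h.ne rfl
    · rintro u rfl v hv huv
      exact absurd (show v = u from hv).symm huv
  refine le_csInf hne ?_
  rintro k ⟨c, hc⟩
  let f : Fin 8 → Fin 13 := fun i => ⟨i + 5, by omega⟩
  have hf : Function.Injective f := by
    intro i j h
    have : (i : ℕ) + 5 = j + 5 := congrArg Fin.val h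
    exact Fin.ext (by omega)
  have hinj : Function.Injective fun i => c (f i) := by
    intro i j hij
    by_contra hne'
    have h1 := (hc (c (f i))).1 (f i) rfl (f j) (show c (f j) = c (f i) from hij.symm)
    apply h1
    rw [SimpleGraph.compl_adj]
    exact ⟨fun h => hne' (hf h), big_indep i j⟩
  have := Fintype.card_le_of_injective _ hinj
  simpa using this

/-- There is a graph `G` on `13` vertices with
`χ_mp_i(G) + χ_mp_i(complement of G) ≥ 13 + 2`. -/
theorem result : ∃ G : SimpleGraph (Fin 13), 13 + 2 ≤ chiMP G + chiMP Gᶜ :=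
  ⟨Gr, by have := chi_ge; have := chi_compl_ge; omega⟩

end Pool.Agent.Results.MP_691331_co.MonophonicCE
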